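import Pool.Agent.H98.ABCR.Stmts

set_option autoImplicit false

namespace Pool.Agent.H98.ABCR

open Finset Polynomial

private lemma upr_M (r n M i : ℕ) (ε : ℝ) (hε : ε = 1 / (4 * ((r : ℝ) + 1)))
    (hM : M = ⌊(1 - ε) * ((r : ℝ) + 1) * (n + 1)⌋₊) (hr : 1 ≤ r) (hn : 1 ≤ n)
    (hi : i + M ≤ (r + 1) * n + 2 * r) :
    ((r : ℝ) + 1) * n / 2 + i ≤ M ∧ (M : ℝ) ≤ (r + 1) * (n + 1) := by
  have hr' : (1 : ℝ) ≤ r := by exact_mod_cast hr
  have hn' : (1 : ℝ) ≤ n := by exact_mod_cast hn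
  have h1 : (1 - ε) * ((r : ℝ) + 1) = r + 3 / 4 := by
    rw [hε]
    field_simp
    ring
  rw [h1] at hM
  have h2 : ((r : ℝ) + 3 / 4) * (n + 1) < M + 1 := by
    rw [hM]; exact Nat.lt_floor_add_one _
  have h3 : (M : ℝ) ≤ ((r : ℝ) + 3 / 4) * (n + 1) := by
    rw [hM]; exact Nat.floor_le (by positivity)
  have h4 : (i : ℝ) + M ≤ (r + 1) * n + 2 * r := by exact_mod_cast hi
  constructor
  · nlinarith [mul_le_mul hr' hn' (by norm_num) (by positivity)]
  · nlinarith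

/-- upper bound for the larger of two linked solutions -/
theorem upr_thm (h1 : S_TSI) (h2 : S_AUX) : S_UPR := by
  intro δ hδ0 hδ1
  set r : ℕ := ⌈8 / δ⌉₊ with hr
  have hrδ : 8 / δ ≤ (r : ℝ) := Nat.le_ceil _
  have h8 : 8 ≤ 8 / δ := by
    rw [le_div_iff₀ hδ0]; linarith
  have hr8 : (8 : ℝ) ≤ r := h8.trans hrδ
  have hr1 : 1 ≤ r := by
    have : (1 : ℝ) ≤ r := by linarith
    exact_mod_cast this
  set ε : ℝ := 1 / (4 * ((r : ℝ) + 1)) with hε
  have hε0 : 0 < ε := by rw [hε]; positivity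
  have hε1 : ε * (r + 1) < 1 := by
    rw [hε]
    have : 1 / (4 * ((r : ℝ) + 1)) * (r + 1) = 1 / 4 := by field_simp
    rw [this]; norm_num
  obtain ⟨c, hc0, hc⟩ := h2 r ε hr1 hε0 hε1
  set c2 : ℝ := c + 12 + (r + 1) with hc2
  have hc2pos : 0 < c2 := by rw [hc2]; positivity
  refine ⟨⌈8 * r / δ⌉₊ + r + 1, max 1 (12 * c2 / δ), le_max_left _ _, ?_⟩
  intro k S θ θi x1 y1 x2 y2 N D hkp hko hk0 hL hW hC hle
  set H1 := lh x1 y1 with hH1
  set H2 := lh x2 y2 with hH2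
  set W := ∑ q ∈ S, θ q + θi with hWdef
  have hkr : r + 1 ≤ k := by omega
  have hkr' : (r : ℝ) + 1 ≤ k := by exact_mod_cast hkr
  have hk8 : 8 * r / δ ≤ k := by
    have h5 : 8 * r / δ ≤ (⌈8 * r / δ⌉₊ : ℝ) := Nat.le_ceil _
    have h6 : ((⌈8 * r / δ⌉₊ : ℕ) : ℝ) ≤ k := by
      have : ⌈8 * r / δ⌉₊ ≤ k := by omega
      exact_mod_cast this
    exact h5.trans h6
  have hk1 : (1 : ℝ) ≤ k := by linarith
  have hkpos : (0 : ℝ) < k := by linarith
  have hkH : (k : ℝ) ≤ H1 := by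
    calc (k : ℝ) = 1 * k := by ring
      _ ≤ max 1 (12 * c2 / δ) * k := by
        apply mul_le_mul_of_nonneg_right (le_max_left _ _) hkpos.le
      _ ≤ H1 := hC
  have hH1pos : 0 < H1 := by linarith
  have hCk : 12 * c2 / δ * k ≤ H1 := by
    calc 12 * c2 / δ * k ≤ max 1 (12 * c2 / δ) * k := by
          apply mul_le_mul_of_nonneg_right (le_max_right _ _) hkpos.le
      _ ≤ H1 := hC
  have hH2pos : 0 < H2 := by linarith
  set σ : ℝ := H2 / H1 with hσ
  have hσ1 : 1 ≤ σ := by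
    rw [hσ, le_div_iff₀ hH1pos]; linarith
  have hσH : σ * H1 = H2 := by rw [hσ]; field_simp
  set n : ℕ := ⌈2 * σ / ((r : ℝ) + 1)⌉₊ with hn
  have hnl : 2 * σ / ((r : ℝ) + 1) ≤ n := Nat.le_ceil _
  have hnu : (n : ℝ) < 2 * σ / ((r : ℝ) + 1) + 1 := Nat.ceil_lt_add_one (by positivity)
  have hn1 : 1 ≤ n := by
    rw [hn, Nat.one_le_ceil_iff]; positivity
  obtain ⟨p, M, hM, hco, hdvd, hval⟩ := hc k n (by omega) hko hn1
  have hx1 : x1 ≠ 0 := hL.s1.x0
  have hy1 : y1 ≠ 0 := hL.s1.y0.ne'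
  obtain ⟨i, hiM, hF⟩ := hval x1 y1 N D hx1 hy1 hL.s1.z0 hL.N0 hL.D0
  obtain ⟨hMi, hMu⟩ := upr_M r n M i ε hε hM hr1 hn1 hiM
  have hn1' : (1 : ℝ) ≤ n := by exact_mod_cast hn1
  have hilt : i < M := by
    have : (i : ℝ) < M := by
      have : 0 < ((r : ℝ) + 1) * n / 2 := by positivity
      linarith
    exact_mod_cast this
  have hsub : ((M - i : ℕ) : ℝ) = (M : ℝ) - i := by
    rw [Nat.cast_sub hilt.le]
  have hMiσ : σ ≤ ((M - i : ℕ) : ℝ) := by
    rw [hsub]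
    have h6 : 2 * σ ≤ n * ((r : ℝ) + 1) := by
      rw [div_le_iff₀ (by positivity)] at hnl; exact hnl
    linarith
  have hmin : min (((M - i : ℕ) : ℝ) * H1) H2 = H2 := by
    apply min_eq_right
    rw [← hσH]
    exact mul_le_mul_of_nonneg_right hMiσ hH1pos.le
  have hT := h1 k r n M i p S θ θi (c * k * n) x1 y1 x2 y2 N D hkp hko hL hilt hco hdvd hF
  rw [← hH1, ← hH2, ← hWdef, hmin] at hT
  have hlhs : δ * H2 ≤ W * H2 := mul_le_mul_of_nonneg_right hW hH2pos.le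
  -- terms
  have t1 : (n : ℝ) * H1 ≤ δ / 4 * H2 + H1 := by
    have h7 : 2 * σ / ((r : ℝ) + 1) ≤ δ / 4 * σ := by
      rw [div_le_iff₀ (by positivity)]
      have h8' : 8 ≤ δ * r := by
        rw [div_le_iff₀ hδ0] at hrδ; linarith
      have h82 : 8 ≤ δ * ((r : ℝ) + 1) := by linarith
      have h83 : 8 * σ ≤ δ * ((r : ℝ) + 1) * σ := mul_le_mul_of_nonneg_right h82 (by linarith)
      linarith
    have h9 : (n : ℝ) ≤ δ / 4 * σ + 1 := by linarith
    calc (n : ℝ) * H1 ≤ (δ / 4 * σ + 1) * H1 := mul_le_mul_of_nonneg_right h9 hH1pos.le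
      _ = δ / 4 * (σ * H1) + H1 := by ring
      _ = δ / 4 * H2 + H1 := by rw [hσH]
  have t2 : (r : ℝ) * ((H1 + H2) / k) ≤ δ / 4 * H2 := by
    have h10 : 8 * r ≤ k * δ := by
      rw [div_le_iff₀ hδ0] at hk8; exact hk8
    rw [← mul_div_assoc, div_le_iff₀ hkpos]
    have h11 : (r : ℝ) * (H1 + H2) ≤ r * (2 * H2) := by
      apply mul_le_mul_of_nonneg_left (by linarith) (by positivity)
    have h12 : 8 * r * H2 ≤ k * δ * H2 := mul_le_mul_of_nonneg_right h10 hH2pos.le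
    linarith
  have t3 : c * k * n + (k * n + r + M + 1) * Real.log 256 + M * Real.log k ≤ c2 * (k * (n + 1)) := by
    have hl256 : Real.log 256 ≤ 6 := by
      have : (256 : ℝ) = 2 ^ 8 := by norm_num
      rw [this, Real.log_pow]
      have := Real.log_two_lt_d9
      push_cast
      linarith
    have hlk : Real.log k ≤ k := by
      have := Real.log_le_sub_one_of_pos hkpos
      linarith
    have a1 : c * k * n ≤ c * (k * (n + 1)) := by
      have : 0 ≤ c * k := by positivity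
      linarith
    have hMk : (M : ℝ) ≤ k * (n + 1) := by
      calc (M : ℝ) ≤ (r + 1) * (n + 1) := hMu
        _ ≤ k * (n + 1) := mul_le_mul_of_nonneg_right hkr' (by positivity)
    have a2 : ((k : ℝ) * n + r + M + 1) * Real.log 256 ≤ 12 * (k * (n + 1)) := by
      have b1 : (k : ℝ) * n + r + M + 1 ≤ 2 * (k * (n + 1)) := by linarith
      have b2 : 0 ≤ Real.log 256 := Real.log_nonneg (by norm_num)
      calc ((k : ℝ) * n + r + M + 1) * Real.log 256 ≤ 2 * (k * (n + 1)) * 6 := by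
            apply mul_le_mul b1 hl256 b2 (by positivity)
        _ = 12 * (k * (n + 1)) := by ring
    have a3 : (M : ℝ) * Real.log k ≤ (r + 1) * (k * (n + 1)) := by
      have b3 : 0 ≤ Real.log k := Real.log_nonneg hk1
      calc (M : ℝ) * Real.log k ≤ ((r + 1) * (n + 1)) * k := mul_le_mul hMu hlk b3 (by positivity)
        _ = (r + 1) * (k * (n + 1)) := by ring
    rw [hc2, add_mul, add_mul]
    linarith
  have t4 : c2 * (k * (n + 1)) ≤ δ / 4 * H2 := by
    have b1 : (n : ℝ) + 1 ≤ 3 * σ := by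
      have b2 : 2 * σ / ((r : ℝ) + 1) ≤ σ := by
        rw [div_le_iff₀ (by positivity)]
        have b22 : 1 * σ ≤ (r : ℝ) * σ := mul_le_mul_of_nonneg_right (by linarith) (by linarith)
        linarith
      linarith
    have b3 : 12 * c2 * k ≤ H1 * δ := by
      have : 12 * c2 / δ * k = 12 * c2 * k / δ := by ring
      rw [this, div_le_iff₀ hδ0] at hCk; exact hCk
    calc c2 * (k * (n + 1)) ≤ c2 * (k * (3 * σ)) := by
          apply mul_le_mul_of_nonneg_left _ hc2pos.le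
          exact mul_le_mul_of_nonneg_left b1 hkpos.le
      _ = (12 * c2 * k) * σ / 4 := by ring
      _ ≤ (H1 * δ) * σ / 4 := by
          have : 12 * c2 * k * σ ≤ H1 * δ * σ := mul_le_mul_of_nonneg_right b3 (by linarith)
          linarith
      _ = δ / 4 * (σ * H1) := by ring
      _ = δ / 4 * H2 := by rw [hσH]
  have hfin : δ / 4 * H2 ≤ H1 := by
    have hT' : W * H2 ≤ c * k * n + (k * n + r + M + 1) * Real.log 256 + M * Real.log k + n * H1 +
      r * ((H1 + H2) / k) := hT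
    linarith
  rw [div_mul_eq_mul_div, le_div_iff₀ hδ0]
  linarith

end Pool.Agent.H98.ABCR
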